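import Pool.Agent.W172.MK.Stm

/-!
# MK-WALSH: counting maps with a large Walsh coefficient
-/

set_option autoImplicit false

open Finset

namespace Pool.Agent.W597.MK

open Pool.Agent.W172.MK

theorem sg_or (x : ZMod 2) : sg x = 1 ∨ sg x = -1 := by
  unfold sg
  split_ifs
  · exact Or.inl rfl
  · exact Or.inr rfl

theorem sg_one (x : ZMod 2) : sg (x + 1) = - sg x := by
  unfold sg
  have h : ∀ x : ZMod 2, (x + 1 = 0 ∧ x ≠ 0) ∨ (x + 1 ≠ 0 ∧ x = 0) := by decide
  rcases h x with ⟨h1, h2⟩ | ⟨h1, h2⟩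
  · rw [if_pos h1, if_neg h2]
    norm_num
  · rw [if_neg h1, if_pos h2]

/-- the sign of a vector -/
noncomputable def ss {r : ℕ} (w v : Fin r → ZMod 2) : ℝ := sg (∑ i, w i * v i)

theorem flip {r : ℕ} {w : Fin r → ZMod 2} (hw : w ≠ 0) : ∃ u : Fin r → ZMod 2, ∀ v,
    ss w (v + u) = - ss w v := by
  obtain ⟨i, hi⟩ := Function.ne_iff.1 hw
  have hi1 : w i = 1 := by
    have h : ∀ x : ZMod 2, x ≠ 0 → x = 1 := by decide
    exact h _ hi
  refine ⟨Pi.single i 1, fun v => ?_⟩
  unfold ss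
  rw [← sg_one]
  congr 1
  have : ∑ j, w j * (v + (Pi.single i 1 : Fin r → ZMod 2)) j = ∑ j, w j * v j + ∑ j, w j * (Pi.single i 1 : Fin r → ZMod 2) j := by
    rw [← Finset.sum_add_distrib]
    refine Finset.sum_congr rfl fun j _ => ?_
    rw [Pi.add_apply, mul_add]
  rw [this]
  congr 1
  rw [Finset.sum_eq_single i]
  · rw [Pi.single_eq_same, hi1, one_mul]
  · intro j _ hj
    rw [Pi.single_eq_of_ne hj, mul_zero]
  · intro h
    exact absurd (Finset.mem_univ i) h

theorem sumexp {r : ℕ} {w : Fin r → ZMod 2} (hw : w ≠ 0) (c : ℝ) :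
    ∑ v : Fin r → ZMod 2, Real.exp (c * ss w v) =
      (Fintype.card (Fin r → ZMod 2) : ℝ) * Real.cosh c := by
  obtain ⟨u, hu⟩ := flip hw
  have h1 : ∑ v : Fin r → ZMod 2, Real.exp (c * ss w v) =
      ∑ v : Fin r → ZMod 2, Real.exp (-(c * ss w v)) := by
    rw [← Equiv.sum_comp (Equiv.addRight u) (fun v => Real.exp (c * ss w v))]
    refine Finset.sum_congr rfl fun v _ => ?_
    rw [Equiv.coe_addRight, hu]
    congr 1
    ring
  have h2 : 2 * ∑ v : Fin r → ZMod 2, Real.exp (c * ss w v) =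
      ∑ v : Fin r → ZMod 2, 2 * Real.cosh c := by
    rw [two_mul]
    conv_lhs => rw [h1]
    conv_lhs => arg 1; rw [← h1]
    rw [← Finset.sum_add_distrib]
    refine Finset.sum_congr rfl fun v _ => ?_
    rw [Real.cosh_eq]
    rcases sg_or (∑ i, w i * v i) with h | h
    · unfold ss
      rw [h, mul_one]
      ring
    · unfold ss
      rw [h, mul_neg, mul_one, neg_neg]
      ring
  rw [Finset.sum_const, nsmul_eq_mul, Finset.card_univ] at h2
  linarith

theorem total {n r : ℕ} {w : Fin r → ZMod 2} (hw : w ≠ 0) (e : V n → ℝ)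
    (he : ∀ b, e b = 1 ∨ e b = -1) (c : ℝ) :
    ∑ ψ : V n → (Fin r → ZMod 2), Real.exp (c * ∑ b, ss w (ψ b) * e b) =
      (Fintype.card (V n → (Fin r → ZMod 2)) : ℝ) * Real.cosh c ^ (Fintype.card (V n)) := by
  have h1 : ∀ ψ : V n → (Fin r → ZMod 2), Real.exp (c * ∑ b, ss w (ψ b) * e b) =
      ∏ b, Real.exp (c * e b * ss w (ψ b)) := by
    intro ψ
    rw [← Real.exp_sum, Finset.mul_sum]
    congr 1
    refine Finset.sum_congr rfl fun b _ => ?_
    ring
  rw [Finset.sum_congr rfl fun ψ _ => h1 ψ]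
  have h2 := Finset.prod_univ_sum (fun _ : V n => (Finset.univ : Finset (Fin r → ZMod 2)))
    (fun b v => Real.exp (c * e b * ss w v))
  rw [Fintype.piFinset_univ] at h2
  rw [← h2]
  have h3 : ∀ b : V n, ∑ v : Fin r → ZMod 2, Real.exp (c * e b * ss w v) =
      (Fintype.card (Fin r → ZMod 2) : ℝ) * Real.cosh c := by
    intro b
    rw [sumexp hw]
    rcases he b with h | h
    · rw [h, mul_one]
    · rw [h, mul_neg, mul_one, Real.cosh_neg]
  rw [Finset.prod_congr rfl fun b _ => h3 b, Finset.prod_const, Finset.card_univ, mul_pow]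
  congr 1
  have h4 : Fintype.card (V n → (Fin r → ZMod 2)) =
      Fintype.card (Fin r → ZMod 2) ^ Fintype.card (V n) := Fintype.card_fun
  rw [h4, Nat.cast_pow]

theorem walsh : P_WALSH := by
  classical
  intro n r w hw a
  have hq : (0 : ℝ) < qq n := by
    unfold qq
    positivity
  have hcard : (Fintype.card (V n) : ℝ) = qq n := by
    unfold qq V
    rw [Fintype.card_fun, ZMod.card, Fintype.card_fin]
    push_cast
    rfl
  set S : (V n → (Fin r → ZMod 2)) → ℝ := fun ψ => ∑ b, ss w (ψ b) * ee a b with hS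
  have hee : ∀ b, ee a b = 1 ∨ ee a b = -1 := fun b => sg_or _
  set B : Finset (V n → (Fin r → ZMod 2)) := univ.filter (fun ψ => qq n / 8 < |S ψ|) with hB
  have hset : Nat.card {ψ : V n → (Fin r → ZMod 2) |
      1 / 8 < |hat (fun b => sg (∑ i, w i * ψ b i)) a|} = B.card := by
    rw [Nat.card_eq_fintype_card, Fintype.card_ofFinset]
    congr 1
    ext ψ
    rw [hB, mem_filter]
    have : hat (fun b => sg (∑ i, w i * ψ b i)) a = S ψ / qq n := rfl
    rw [mem_filter]
    have h0 : ψ ∈ {ψ : V n → (Fin r → ZMod 2) |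
        1 / 8 < |hat (fun b => sg (∑ i, w i * ψ b i)) a|} ↔ qq n / 8 < |S ψ| := by
      rw [Set.mem_ofPred_eq, this, abs_div, abs_of_pos hq, lt_div_iff₀ hq]
      constructor
      · intro h2
        linarith
      · intro h2
        linarith
    exact and_congr_right fun _ => h0
  rw [hset, Nat.card_eq_fintype_card]
  have hmk : ∀ ψ ∈ B, (1 : ℝ) ≤ (Real.exp (1 / 8 * S ψ) + Real.exp (-(1 / 8) * S ψ)) *
      Real.exp (-(qq n / 64)) := by
    intro ψ hψ
    rw [hB, mem_filter] at hψ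
    have h1 := hψ.2
    rw [add_mul, ← Real.exp_add, ← Real.exp_add]
    rcases lt_abs.1 h1 with h2 | h2
    · have h3 : 1 ≤ Real.exp (1 / 8 * S ψ + -(qq n / 64)) := by
        rw [Real.one_le_exp_iff]
        linarith
      have h4 := Real.exp_pos (-(1 / 8) * S ψ + -(qq n / 64))
      linarith
    · have h3 : 1 ≤ Real.exp (-(1 / 8) * S ψ + -(qq n / 64)) := by
        rw [Real.one_le_exp_iff]
        linarith
      have h4 := Real.exp_pos (1 / 8 * S ψ + -(qq n / 64))
      linarith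
  have h5 : (B.card : ℝ) ≤ ∑ ψ, (Real.exp (1 / 8 * S ψ) + Real.exp (-(1 / 8) * S ψ)) *
      Real.exp (-(qq n / 64)) := by
    calc (B.card : ℝ) = ∑ ψ ∈ B, (1 : ℝ) := by simp
      _ ≤ ∑ ψ ∈ B, (Real.exp (1 / 8 * S ψ) + Real.exp (-(1 / 8) * S ψ)) *
          Real.exp (-(qq n / 64)) := Finset.sum_le_sum hmk
      _ ≤ _ := Finset.sum_le_sum_of_subset_of_nonneg (Finset.subset_univ _)
          fun ψ _ _ => by positivity
  rw [← Finset.sum_mul, Finset.sum_add_distrib, total hw _ hee, total hw _ hee, Real.cosh_neg] at h5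
  have h6 : Real.cosh (1 / 8) ^ (Fintype.card (V n)) ≤ Real.exp (qq n / 128) := by
    calc Real.cosh (1 / 8) ^ (Fintype.card (V n)) ≤
          (Real.exp ((1 / 8) ^ 2 / 2)) ^ (Fintype.card (V n)) :=
          pow_le_pow_left₀ (Real.cosh_pos _).le (Real.cosh_le_exp_half_sq _) _
      _ = Real.exp (qq n / 128) := by
          rw [← Real.exp_nat_mul, hcard]
          congr 1
          ring
  have h7 : (0 : ℝ) ≤ (Fintype.card (V n → (Fin r → ZMod 2)) : ℝ) := Nat.cast_nonneg _
  have h8 : Real.exp (qq n / 128) * Real.exp (-(qq n / 64)) = Real.exp (-(qq n / 128)) := by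
    rw [← Real.exp_add]
    congr 1
    ring
  refine le_trans h5 ?_
  rw [← h8]
  have h9 := mul_le_mul_of_nonneg_left h6 h7
  have h10 := mul_le_mul_of_nonneg_right h9 (Real.exp_pos (-(qq n / 64))).le
  nlinarith

end Pool.Agent.W597.MK
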